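import Pool.Agent.Q213.FDj

/-!
# Natural boundaries of zeta functions of FAD-systems

Every FAD-system whose Artin-Mazur zeta function is not root-rational has a natural boundary along
its circle of convergence `|z| = 1/Λ`.
-/

namespace Pool.Agent.Results.MP_dde008_nt.NaturalBoundary

open Filter Topology
open scoped ENNReal

/-- The number `f_n` of points fixed by the `n`-th iterate of `f`. -/
noncomputable def fixCount {X : Type*} (f : X → X) (n : ℕ) : ℕ := {x | f^[n] x = x}.ncard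

/-- `a` (indexed by `n ≥ 1`) is a gcd sequence with period `N`. -/
def IsGcd (a : ℕ → ℝ) (N : ℕ) : Prop := 1 ≤ N ∧ ∀ n : ℕ, 1 ≤ n → a n = a (Nat.gcd n N)

/-- `(X, f)` is a FAD-system: every iterate `f^n` (`n ≥ 1`) has finitely many fixed points, and
`f_n = |det(A^n - 1)| c^n r_n ∏_{p ∈ S} |n|_p^{s_{p,n}} p^{-t_{p,n} |n|_p^{-1}}` for all `n ≥ 1`. -/
def IsFAD {X : Type*} (f : X → X) : Prop :=
  (∀ n : ℕ, 1 ≤ n → {x | f^[n] x = x}.Finite) ∧
  ∃ (D : ℕ) (A : Matrix (Fin D) (Fin D) ℤ) (S : Finset ℕ) (c : ℝ) (r : ℕ → ℝ) (s t : ℕ → ℕ → ℝ),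
    (∀ p ∈ S, p.Prime) ∧ 0 < c ∧
    (∃ N, IsGcd r N) ∧ (∀ n : ℕ, 1 ≤ n → 0 < r n) ∧
    (∀ p ∈ S, (∃ N, Nat.Coprime N p ∧ IsGcd (s p) N) ∧ (∃ N, Nat.Coprime N p ∧ IsGcd (t p) N) ∧
      ∀ n : ℕ, 1 ≤ n → 0 ≤ s p n ∧ 0 ≤ t p n) ∧
    ∀ n : ℕ, 1 ≤ n → (fixCount f n : ℝ) = |(((A ^ n - 1).det : ℤ) : ℝ)| * c ^ n * r n *
      ∏ p ∈ S, ((padicNorm p n : ℚ) : ℝ) ^ (s p n) *
        (p : ℝ) ^ (-(t p n * ((padicNorm p n : ℚ) : ℝ)⁻¹))

/-- `Λ = exp (limsup (log f_n) / n)`, in the extended nonnegative reals (`log 0 = -∞`). -/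
noncomputable def growth {X : Type*} (f : X → X) : ℝ≥0∞ :=
  EReal.exp (limsup (fun n : ℕ => ENNReal.log (fixCount f n : ℝ≥0∞) / (n : EReal)) atTop)

/-- The Artin-Mazur zeta function `ζ_f(z) = exp (∑_{n ≥ 1} f_n z^n / n)`. -/
noncomputable def zeta {X : Type*} (f : X → X) (z : ℂ) : ℂ :=
  Complex.exp (∑' n : ℕ, ((fixCount f (n + 1) : ℂ) / ((n : ℂ) + 1)) * z ^ (n + 1))

/-- `ζ_f` is root-rational: `Q ζ_f^k = P` on the disc `|z| < 1/Λ` for some `k ≥ 1` and polynomials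
`P`, `Q ≠ 0`. -/
def RootRational {X : Type*} (f : X → X) : Prop :=
  ∃ k : ℕ, 1 ≤ k ∧ ∃ P Q : Polynomial ℂ, Q ≠ 0 ∧ ∀ z : ℂ, ‖z‖ₑ < (growth f)⁻¹ →
    Q.eval z * zeta f z ^ k = P.eval z

/-- `ζ_f` has a natural boundary along `|z| = 1/Λ`: it has no analytic continuation to any open set
meeting that circle. -/
def HasNaturalBoundary {X : Type*} (f : X → X) : Prop :=
  ¬ ∃ U : Set ℂ, IsOpen U ∧ (∃ w ∈ U, ‖w‖ₑ = (growth f)⁻¹) ∧ ∃ g : ℂ → ℂ, AnalyticOnNhd ℂ g U ∧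
    ∀ z ∈ U, ‖z‖ₑ < (growth f)⁻¹ → g z = zeta f z

/-- The zeta function of a FAD-system is root-rational or has a natural boundary along the circle
`|z| = 1/Λ`. -/
theorem result {X : Type*} (f : X → X) (hf : IsFAD f) (hnr : ¬ RootRational f) :
    HasNaturalBoundary f := by
  classical
  obtain ⟨hfin, D, A, S, c, r, s, t, hS, hc, ⟨Nr, hNr0, hNr⟩, hr0, hst, hform⟩ := hf
  have hs1 : ∀ p ∈ S, ∃ N, Nat.Coprime N p ∧ IsGcd (s p) N := fun p hp => (hst p hp).1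
  have ht1 : ∀ p ∈ S, ∃ N, Nat.Coprime N p ∧ IsGcd (t p) N := fun p hp => (hst p hp).2.1
  choose! Ns hNs1 hNs2 using hs1
  choose! Nt hNt1 hNt2 using ht1
  have hm0 : ∀ p ∈ S, 0 < Ns p * Nt p := fun p hp => Nat.mul_pos (hNs2 p hp).1 (hNt2 p hp).1
  have hg0 : ∀ p ∈ S, ∀ n, 1 ≤ Nat.gcd n (Ns p * Nt p) := fun p hp n =>
    Nat.gcd_pos_of_pos_right _ (hm0 p hp)
  let d : Q213.FD.ND :=
    { S := S
      hS := hS
      s := fun p n => s p (Nat.gcd n (Ns p * Nt p))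
      t := fun p n => t p (Nat.gcd n (Ns p * Nt p))
      m := fun p => Ns p * Nt p
      hm0 := hm0
      hmp := fun p hp => Nat.Coprime.mul_left (hNs1 p hp) (hNt1 p hp)
      hs := fun p _ n => by rw [Nat.gcd_assoc, Nat.gcd_self]
      ht := fun p _ n => by rw [Nat.gcd_assoc, Nat.gcd_self]
      hs0 := fun p hp n => ((hst p hp).2.2 _ (hg0 p hp n)).1
      ht0 := fun p hp n => ((hst p hp).2.2 _ (hg0 p hp n)).2
      r := fun n => r (Nat.gcd n Nr)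
      mr := Nr
      hmr0 := hNr0
      hr := fun n => by rw [Nat.gcd_assoc, Nat.gcd_self]
      hr0 := fun n => hr0 _ (Nat.gcd_pos_of_pos_right _ hNr0) }
  have hV : ∀ n, 1 ≤ n → r n * ∏ p ∈ S, ((padicNorm p n : ℚ) : ℝ) ^ (s p n) *
      (p : ℝ) ^ (-(t p n * ((padicNorm p n : ℚ) : ℝ)⁻¹)) = d.V n := by
    intro n hn
    have e1 : d.V n = r (Nat.gcd n Nr) * ∏ p ∈ S, Q213.FD.eta p (s p (Nat.gcd n (Ns p * Nt p)))
      (t p (Nat.gcd n (Ns p * Nt p))) (padicValNat p n) := rfl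
    rw [e1, ← hNr n hn]
    congr 1
    refine Finset.prod_congr rfl fun p hp => ?_
    have hpp := hS p hp
    have := Fact.mk hpp
    have hs : s p (Nat.gcd n (Ns p * Nt p)) = s p n := by
      rw [(hNs2 p hp).2 _ (hg0 p hp n), Nat.gcd_assoc, Nat.gcd_eq_right (Dvd.intro _ rfl),
        ← (hNs2 p hp).2 n hn]
    have ht : t p (Nat.gcd n (Ns p * Nt p)) = t p n := by
      rw [(hNt2 p hp).2 _ (hg0 p hp n), Nat.gcd_assoc, Nat.gcd_eq_right (Dvd.intro_left _ rfl),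
        ← (hNt2 p hp).2 n hn]
    rw [hs, ht]
    have hp0 : (0 : ℝ) < p := by exact_mod_cast hpp.pos
    have hnorm : ((padicNorm p n : ℚ) : ℝ) = (p : ℝ) ^ (-(padicValNat p n : ℝ)) := by
      have h1 : padicValRat p (n : ℚ) = ((padicValNat p n : ℕ) : ℤ) := padicValRat.of_nat
      rw [padicNorm.eq_zpow_of_nonzero (by exact_mod_cast (by omega : n ≠ 0)), h1, Rat.cast_zpow,
        Rat.cast_natCast, ← Real.rpow_intCast, Int.cast_neg, Int.cast_natCast]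
    rw [hnorm, ← Real.rpow_mul hp0.le, ← Real.rpow_neg hp0.le, neg_neg, Real.rpow_natCast,
      ← Real.rpow_add hp0, Q213.FD.eta]
    congr 1
    ring
  refine Q213.FD.main_seq (F := fixCount f) A hc d ?_ ?_ ?_
  · intro n hn
    rw [hform n hn, ← hV n hn]
    ring
  · intro q hq
    exact Q213.FD.dold f hfin hq
  · exact hnr

end Pool.Agent.Results.MP_dde008_nt.NaturalBoundary
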